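import Pool.Agent.H891.UF.Final
import Pool.Agent.H891.UF.Hilb
import Pool.Agent.H891.UF.Units
import Pool.Agent.H891.UF.Choice

/-!
# Cancelling tensor factors in unital embeddings of UHF-type algebras

For all cardinals `κ < κ'` with `κ'` infinite and all `n ≥ 1`: if `⨂_{κ'} M_n` embeds unitally
into `A ⊗ ⨂_κ M_n`, where `A = ⨂_{i ∈ I} M_{m_i}`, then `⨂_{κ'} M_n` embeds unitally into `A`.
The same holds with `⨂_κ M_n` replaced by any tensor product of `κ` matrix algebras. The proof gives
the criterion that `⨂_K M_n`, `K` infinite, embeds unitally into `⨂_{j ∈ J} M_{n_j}` if and only if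
for every prime divisor `p` of `n` at least `#K` of the sizes `n_j` are divisible by `p`.

The case `n = 2` is in the starting file `Pool/Agent/Results/MP_0dad12_an/Embeddings.lean`, whose
helper files (slice maps, closing off, universal property, existence) are used here.
-/

universe u

open Cardinal Pool.Agent.Helper741.UHF Pool.Agent.H891.UF

namespace Pool.Agent.Results.MP_c44838_an.Cancellation

/-- The assertion of the question for the cardinals `κ = #K`, `κ' = #K'` and the size `N`: for all
`A = ⨂_{i ∈ I} M_{m_i}(ℂ)`, `B = ⨂_K M_N(ℂ)`, `B' = ⨂_{K'} M_N(ℂ)` and `E = A ⊗ B`, if `B'`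
embeds unitally into `E` then `B'` embeds unitally into `A`. -/
def Q1 (K K' : Type u) (N : ℕ) : Prop :=
  ∀ (I : Type u) (m : I → ℕ), (∀ i, 0 < m i) →
    ∀ (A B B' E : Type u) [CStarAlgebra A] [CStarAlgebra B] [CStarAlgebra B'] [CStarAlgebra E],
      IsMatrixTensor m A → IsMatrixTensor (fun _ : K => N) B →
      IsMatrixTensor (fun _ : K' => N) B' → IsCStarTensor A B E →
      EmbedsUnitally B' E → EmbedsUnitally B' A

/-- **Main result.** (1) The answer to the question is yes. (2) More generally any tensor product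
of fewer than `#K'` matrix algebras cancels. (3) The embedding criterion for infinite `K`.
(4), (5) The tensor products named in the statement exist and are unique up to isomorphism, and
`A ⊗ B` is the tensor product over the disjoint union of the index sets. -/
theorem result :
    (∀ (K K' : Type u) (N : ℕ), 0 < N → #K < #K' → Infinite K' → Q1 K K' N) ∧
    (∀ (I K K' : Type u) (m : I → ℕ) (k : K → ℕ) (N : ℕ), (∀ i, 0 < m i) → (∀ i, 0 < k i) →
      0 < N → #K < #K' → Infinite K' →
      ∀ (A B B' E : Type u) [CStarAlgebra A] [CStarAlgebra B] [CStarAlgebra B'] [CStarAlgebra E],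
        IsMatrixTensor m A → IsMatrixTensor k B → IsMatrixTensor (fun _ : K' => N) B' →
        IsCStarTensor A B E → EmbedsUnitally B' E → EmbedsUnitally B' A) ∧
    (∀ (J K : Type u) (n : J → ℕ) (N : ℕ), (∀ j, 0 < n j) → 0 < N → Infinite K →
      ∀ (E B : Type u) [CStarAlgebra E] [CStarAlgebra B],
        IsMatrixTensor n E → IsMatrixTensor (fun _ : K => N) B →
        (EmbedsUnitally B E ↔ ∀ p : ℕ, p.Prime → p ∣ N → #K ≤ #{j | p ∣ n j})) ∧
    (∀ (J : Type u) (n : J → ℕ), (∀ j, 0 < n j) →
      (∃ (E : Type u) (_ : CStarAlgebra E), IsMatrixTensor n E) ∧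
      ∀ (E F : Type u) [CStarAlgebra E] [CStarAlgebra F],
        IsMatrixTensor n E → IsMatrixTensor n F → Nonempty (E ≃⋆ₐ[ℂ] F)) ∧
    (∀ (I K : Type u) (n : I → ℕ) (m : K → ℕ), (∀ i, 0 < n i) → (∀ k, 0 < m k) →
      ∀ (A B E : Type u) [CStarAlgebra A] [CStarAlgebra B] [CStarAlgebra E],
        IsMatrixTensor n A → IsMatrixTensor m B →
        (IsCStarTensor A B E ↔ IsMatrixTensor (Sum.elim n m) E)) := by
  refine ⟨?_, ?_, ?_, fun J n hn => ⟨exists_isMatrixTensor n hn, fun E F _ _ hE hF =>
      isMatrixTensor_unique hn hE hF⟩, fun I K n m hn hm A B E _ _ _ hA hB =>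
      isCStarTensor_iff hn hm hA hB⟩
  · intro K K' N hN hlt hinf I m hm A B B' E _ _ _ _ hA hB hB' hE hemb
    exact cancel t_HILB t_CHOICE t_UNITS hm (fun _ => hN) hN hlt hA hB hB' hE hemb
  · intro I K K' m k N hm hk hN hlt hinf A B B' E _ _ _ _ hA hB hB' hE hemb
    exact cancel t_HILB t_CHOICE t_UNITS hm hk hN hlt hA hB hB' hE hemb
  · intro J K n N hn hN hinf E B _ _ hE hB
    exact embeds_iff_inf t_HILB t_CHOICE t_UNITS hn hN hE hB

end Pool.Agent.Results.MP_c44838_an.Cancellation
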